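import Pool.Agent.helper17.MK.Spec

/-! # Four clusters: row SX -/

set_option autoImplicit false

namespace Pool.Agent.MK

open Finset Real Pool.Agent.helper39.MT Pool.Agent.helper85.FC

section
variable {ι : Type} [Fintype ι] [DecidableEq ι] {k : ℕ}

open Classical in
theorem SX_ind (τ e : ι → Option (Fin k)) :
    ind τ e = if ∀ p, τ p = none ∨ e p = τ p then 1 else 0 := by
  unfold ind
  by_cases h : ∀ p, τ p = none ∨ e p = τ p
  · rw [if_pos h]
    apply Finset.prod_eq_one
    intro p _
    rcases h p with h1 | h1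
    · rw [if_pos h1]
    · by_cases h2 : τ p = none
      · rw [if_pos h2]
      · rw [if_neg h2, if_pos h1]
  · rw [if_neg h]
    push Not at h
    obtain ⟨p, h1, h2⟩ := h
    apply Finset.prod_eq_zero (Finset.mem_univ p)
    rw [if_neg h1, if_neg h2]

theorem SX_mem_supp (τ : ι → Option (Fin k)) (p : ι) : p ∈ supp τ ↔ τ p ≠ none := by
  simp [supp]

theorem SX_mem_TS (pr : ι → ℕ) (m : Fin k) (e : ι → Option (Fin k)) (n : ℕ) :
    n ∈ TS pr m e ↔ ∃ p, e p = some m ∧ pr p = n := by
  simp [TS, cls]

theorem SX_dd (pr : ι → ℕ) (hpr : Function.Injective pr) (τ : ι → Option (Fin k)) :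
    (dd pr τ : ℝ) = ∏ p ∈ (supp τ).image pr, (p : ℝ) := by
  rw [Finset.prod_image (fun x _ y _ h => hpr h)]
  unfold dd
  push_cast
  rw [← Finset.prod_filter_mul_prod_filter_not Finset.univ (fun p => p ∈ supp τ)]
  have h1 : ∏ p ∈ Finset.univ.filter (fun p => p ∉ supp τ),
      ((if τ p = none then (1 : ℕ) else pr p : ℕ) : ℝ) = 1 := by
    apply Finset.prod_eq_one
    intro p hp
    have h2 : τ p = none := by
      by_contra h3
      exact (Finset.mem_filter.1 hp).2 ((SX_mem_supp τ p).2 h3)
    rw [if_pos h2, Nat.cast_one]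
  have h2 : Finset.univ.filter (fun p => p ∈ supp τ) = supp τ := by
    ext p
    simp
  have h3 : ∏ p ∈ supp τ, ((if τ p = none then (1 : ℕ) else pr p : ℕ) : ℝ) =
      ∏ p ∈ supp τ, (pr p : ℝ) := by
    apply Finset.prod_congr rfl
    intro p hp
    rw [if_neg ((SX_mem_supp τ p).1 hp)]
  have h4 : ∀ p : ι, (if τ p = none then (1 : ℝ) else (pr p : ℝ)) =
      ((if τ p = none then (1 : ℕ) else pr p : ℕ) : ℝ) := by
    intro p
    split_ifs <;> simp
  simp only [Nat.cast_ite, Nat.cast_one] at h1 h3 ⊢
  rw [h1, mul_one, h2, h3]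

end

theorem SX : SX_stmt := by
  classical
  intro ι _ _ k pr l P m m' Y hpr hl
  set G : (ι → Option (Fin k)) → Prop :=
    fun τ => ∀ p i, τ p = some i → (i = m ∨ i = m') ∧ pr p ∈ P with hG
  have hsub : ∀ τ, G τ → (supp τ).image pr ⊆ P := by
    intro τ hτ n hn
    obtain ⟨p, hp, rfl⟩ := Finset.mem_image.1 hn
    obtain ⟨i, hi⟩ := Option.ne_none_iff_exists'.1 ((SX_mem_supp τ p).1 hp)
    exact (hτ p i hi).2
  refine ⟨fun τ => if G τ then l ((supp τ).image pr) else 0, ?_, ?_, ?_⟩
  · intro e
    have h1 : ∑ τ : ι → Option (Fin k), (if G τ then l ((supp τ).image pr) else 0) * ind τ e =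
        ∑ τ ∈ (Finset.univ : Finset (ι → Option (Fin k))).filter
          (fun τ => G τ ∧ ∀ p, τ p = none ∨ e p = τ p), l ((supp τ).image pr) := by
      rw [Finset.sum_filter]
      apply Finset.sum_congr rfl
      intro τ _
      rw [SX_ind]
      by_cases h2 : G τ <;> by_cases h3 : ∀ p, τ p = none ∨ e p = τ p
      · rw [if_pos h2, if_pos h3, if_pos ⟨h2, h3⟩, mul_one]
      · rw [if_neg h3, mul_zero, if_neg (fun h => h3 h.2)]
      · rw [if_neg h2, zero_mul, if_neg (fun h => h2 h.1)]
      · rw [if_neg h2, zero_mul, if_neg (fun h => h2 h.1)]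
    rw [h1]
    unfold SU Sg
    have hK1 : ∀ K ∈ ((TS pr m e ∪ TS pr m' e) ∩ P).powerset, ∀ p, pr p ∈ K →
        (e p = some m ∨ e p = some m') ∧ pr p ∈ P := by
      intro K hK p hp
      have h2 := Finset.mem_inter.1 (Finset.mem_powerset.1 hK hp)
      refine ⟨?_, h2.2⟩
      rcases Finset.mem_union.1 h2.1 with h3 | h3
      · obtain ⟨q, hq, hqp⟩ := (SX_mem_TS _ _ _ _).1 h3
        rw [← hpr hqp]
        exact Or.inl hq
      · obtain ⟨q, hq, hqp⟩ := (SX_mem_TS _ _ _ _).1 h3
        rw [← hpr hqp]
        exact Or.inr hq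
    refine Finset.sum_nbij' (fun K p => if pr p ∈ K then e p else none)
      (fun τ => (supp τ).image pr) ?_ ?_ ?_ ?_ ?_
    · intro K hK
      refine Finset.mem_filter.2 ⟨Finset.mem_univ _, ?_, ?_⟩
      · intro p i hi
        simp only at hi
        by_cases h2 : pr p ∈ K
        · rw [if_pos h2] at hi
          obtain ⟨h3, h4⟩ := hK1 K hK p h2
          refine ⟨?_, h4⟩
          rw [hi] at h3
          rcases h3 with h3 | h3
          · exact Or.inl (Option.some.inj h3)
          · exact Or.inr (Option.some.inj h3)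
        · rw [if_neg h2] at hi
          exact absurd hi (by simp)
      · intro p
        by_cases h2 : pr p ∈ K
        · right
          simp only [if_pos h2]
        · left
          simp only [if_neg h2]
    · intro τ hτ
      obtain ⟨-, h2, h3⟩ := Finset.mem_filter.1 hτ
      refine Finset.mem_powerset.2 fun n hn => ?_
      obtain ⟨p, hp, rfl⟩ := Finset.mem_image.1 hn
      have h4 := (SX_mem_supp τ p).1 hp
      obtain ⟨i, hi⟩ := Option.ne_none_iff_exists'.1 h4
      have h5 : e p = some i := by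
        rcases h3 p with h6 | h6
        · exact absurd h6 h4
        · rw [h6, hi]
      obtain ⟨h6, h7⟩ := h2 p i hi
      refine Finset.mem_inter.2 ⟨Finset.mem_union.2 ?_, h7⟩
      rcases h6 with rfl | rfl
      · exact Or.inl ((SX_mem_TS _ _ _ _).2 ⟨p, h5, rfl⟩)
      · exact Or.inr ((SX_mem_TS _ _ _ _).2 ⟨p, h5, rfl⟩)
    · intro K hK
      ext n
      constructor
      · intro hn
        obtain ⟨p, hp, rfl⟩ := Finset.mem_image.1 hn
        have h2 := (SX_mem_supp _ p).1 hp
        by_contra h3
        simp only [if_neg h3, ne_eq, not_true_eq_false] at h2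
      · intro hn
        have h2 := Finset.mem_inter.1 (Finset.mem_powerset.1 hK hn)
        have h3 : ∃ p, pr p = n := by
          rcases Finset.mem_union.1 h2.1 with h3 | h3
          · obtain ⟨q, hq, hqp⟩ := (SX_mem_TS _ _ _ _).1 h3
            exact ⟨q, hqp⟩
          · obtain ⟨q, hq, hqp⟩ := (SX_mem_TS _ _ _ _).1 h3
            exact ⟨q, hqp⟩
        obtain ⟨p, rfl⟩ := h3
        refine Finset.mem_image.2 ⟨p, (SX_mem_supp _ p).2 ?_, rfl⟩
        simp only [if_pos hn]
        rcases (hK1 K hK p hn).1 with h4 | h4 <;> rw [h4] <;> simp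
    · intro τ hτ
      obtain ⟨-, h2, h3⟩ := Finset.mem_filter.1 hτ
      funext p
      by_cases h4 : pr p ∈ (supp τ).image pr
      · simp only [if_pos h4]
        obtain ⟨q, hq, hqp⟩ := Finset.mem_image.1 h4
        rw [hpr hqp] at hq
        rcases h3 p with h5 | h5
        · exact absurd h5 ((SX_mem_supp τ p).1 hq)
        · exact h5
      · simp only [if_neg h4]
        by_contra h5
        exact h4 (Finset.mem_image.2 ⟨p, (SX_mem_supp τ p).2 (fun h => h5 h.symm), rfl⟩)
    · intro K hK
      have h9 : (supp (fun p => if pr p ∈ K then e p else none)).image pr = K := by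
        ext n
        constructor
        · intro hn
          obtain ⟨p, hp, rfl⟩ := Finset.mem_image.1 hn
          have h2 := (SX_mem_supp _ p).1 hp
          by_contra h3
          simp only [if_neg h3, ne_eq, not_true_eq_false] at h2
        · intro hn
          have h2 := Finset.mem_inter.1 (Finset.mem_powerset.1 hK hn)
          have h3 : ∃ p, pr p = n := by
            rcases Finset.mem_union.1 h2.1 with h3 | h3
            · obtain ⟨q, hq, hqp⟩ := (SX_mem_TS _ _ _ _).1 h3
              exact ⟨q, hqp⟩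
            · obtain ⟨q, hq, hqp⟩ := (SX_mem_TS _ _ _ _).1 h3
              exact ⟨q, hqp⟩
          obtain ⟨p, rfl⟩ := h3
          refine Finset.mem_image.2 ⟨p, (SX_mem_supp _ p).2 ?_, rfl⟩
          simp only [if_pos hn]
          rcases (hK1 K hK p hn).1 with h4 | h4 <;> rw [h4] <;> simp
      rw [h9]
  · intro τ
    simp only [Nat.cast_one, one_pow, mul_one]
    by_cases h2 : G τ
    · rw [if_pos h2]
      exact (hl _ (hsub τ h2)).1
    · rw [if_neg h2, abs_zero]
      exact zero_le_one
  · intro τ hτ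
    by_cases h2 : G τ
    · simp only [if_pos h2] at hτ
      refine ⟨?_, fun p i hi => h2 p i hi⟩
      rw [SX_dd pr hpr]
      exact (hl _ (hsub τ h2)).2 hτ
    · simp only [if_neg h2] at hτ
      exact absurd rfl hτ

end Pool.Agent.MK
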